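import Mathlib
import Pool.Agent.H79.SingDefs
import Pool.Agent.H79.Sing

set_option autoImplicit false

namespace Pool.Agent.Results.MP_dea706_ag.NotRadical

open Pool.Agent.H79.SingDefs

/-- For `n ≥ 2` and `m ≥ n^2 - n + 1` the determinantal polynomials do not generate the vanishing
ideal of `SING_{n,m}`. -/
theorem result (n m : ℕ) (hn : 2 ≤ n) (hm : n ^ 2 - n + 1 ≤ m) :
    ∃ f ∈ MvPolynomial.vanishingIdeal ℂ (SING n m), f ∉ Ideal.span (Set.range (detPoly n m)) :=
  Pool.Agent.H79.Sing.main n m hn hm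

end Pool.Agent.Results.MP_dea706_ag.NotRadical
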